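import Pool.Agent.L7h49.PM.Def

/-! Project PM, part DIA (helper16). -/

set_option autoImplicit false

namespace Pool.Agent.L7h16.PM

open Finset Pool.Agent.L7h49.PM

theorem sum_range_two_mul (f : ℕ → ℝ) (n : ℕ) :
    ∑ k ∈ range (2 * n), f k = ∑ k ∈ range n, (f (2 * k) + f (2 * k + 1)) := by
  induction n with
  | zero => simp
  | succ n ih =>
    rw [show 2 * (n + 1) = 2 * n + 1 + 1 by ring, sum_range_succ, sum_range_succ, ih,
      sum_range_succ]
    ring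

theorem s_DIA : S_DIA := by
  intro R A M hM hA hr
  set e : ℕ → ℝ := fun r => (1 / 2 ^ r : ℝ) * ∑ k ∈ range (2 ^ r), (A r k) ^ 2 with he
  have h1 : ∀ r ∈ range R, (1 / 2 ^ r : ℝ) *
      ∑ k ∈ range (2 ^ r), ((A (r + 1) (2 * k) - A (r + 1) (2 * k + 1)) / 2) ^ 2 =
      e (r + 1) - e r := by
    intro r hrR
    rw [mem_range] at hrR
    simp only [he]
    rw [show (2 : ℕ) ^ (r + 1) = 2 * 2 ^ r by ring, sum_range_two_mul]
    have h2 : ∑ k ∈ range (2 ^ r), (A r k) ^ 2 =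
        ∑ k ∈ range (2 ^ r), ((A (r + 1) (2 * k) + A (r + 1) (2 * k + 1)) / 2) ^ 2 :=
      sum_congr rfl fun k hk => by rw [hr r hrR k (mem_range.1 hk)]
    rw [h2, pow_succ]
    have h3 : (1 / (2 ^ r * 2) : ℝ) = 1 / 2 ^ r * (1 / 2) := by field_simp
    rw [h3, mul_assoc, ← mul_sub]
    congr 1
    rw [mul_sum, ← sum_sub_distrib]
    exact sum_congr rfl fun k _ => by ring
  rw [sum_congr rfl h1, sum_range_sub]
  have h4 : 0 ≤ e 0 := by
    simp only [he]; positivity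
  have h5 : e R ≤ M ^ 2 := by
    simp only [he]
    have h6 : ∑ k ∈ range (2 ^ R), (A R k) ^ 2 ≤ ∑ _k ∈ range (2 ^ R), M ^ 2 :=
      sum_le_sum fun k hk => by
        rw [← sq_abs]
        exact pow_le_pow_left₀ (abs_nonneg _) (hA k (mem_range.1 hk)) 2
    rw [sum_const, card_range, nsmul_eq_mul] at h6
    calc (1 / 2 ^ R : ℝ) * ∑ k ∈ range (2 ^ R), (A R k) ^ 2
        ≤ (1 / 2 ^ R : ℝ) * (((2 ^ R : ℕ) : ℝ) * M ^ 2) :=
          mul_le_mul_of_nonneg_left h6 (by positivity)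
      _ = M ^ 2 := by push_cast; field_simp
  linarith

end Pool.Agent.L7h16.PM
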