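import Pool.Agent.L7h49.PM.Def

/-! Project PM, part LIM (helper16). -/

set_option autoImplicit false

namespace Pool.Agent.L7h16.PM

open Pool.Agent.L7h49.PM

theorem norm_pt (a b c d : ℝ) : ‖pt a b - pt c d‖ = √((a - c) ^ 2 + (b - d) ^ 2) := by
  rw [EuclideanSpace.norm_eq]
  simp [pt, Fin.sum_univ_two]

theorem s_LIM : S_LIM := by
  intro y s L hy hs0 hs1 hL hyL
  set w : ℝ := √(100 - s ^ 2) with hw
  have hs2 : s ^ 2 ≤ 1 := by nlinarith
  have hw2 : w ^ 2 = 100 - s ^ 2 := Real.sq_sqrt (by linarith)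
  have hw0 : 0 < w := Real.sqrt_pos.2 (by linarith)
  have hw10 : w ≤ 10 := by nlinarith
  set A : ℝ := 10 * L / w with hA
  have hAw : A * w = 10 * L := by rw [hA]; field_simp
  have hA0 : 0 < A := by positivity
  have hAL : L ≤ A := by nlinarith
  have htau : s / w * L = A * (s / 10) := by rw [hA]; field_simp
  have hA2 : A ^ 2 = L ^ 2 + (A * (s / 10)) ^ 2 := by
    have h1 : A ^ 2 * w ^ 2 = 100 * L ^ 2 := by
      have : (A * w) ^ 2 = (10 * L) ^ 2 := by rw [hAw]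
      nlinarith
    rw [hw2] at h1
    nlinarith
  have e1 : ‖pt 0 0 - pt L (s / w * L)‖ = A := by
    rw [norm_pt, htau, show (0 - L) ^ 2 + (0 - A * (s / 10)) ^ 2 = A ^ 2 by rw [hA2]; ring]
    exact Real.sqrt_sq hA0.le
  rw [e1, norm_pt, htau]
  set B : ℝ := √((0 - L) ^ 2 + (y - A * (s / 10)) ^ 2) with hB
  have hB0 : 0 ≤ B := Real.sqrt_nonneg _
  have hB2 : B ^ 2 = (A - y * (s / 10)) ^ 2 + y ^ 2 * (1 - (s / 10) ^ 2) := by
    rw [hB, Real.sq_sqrt (by positivity)]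
    nlinarith
  set x : ℝ := A - y * (s / 10) with hx
  have hx2 : L / 2 ≤ x := by
    have : y * (s / 10) ≤ y := by nlinarith
    rw [hx]; linarith
  have hsq : 0 ≤ 1 - (s / 10) ^ 2 := by nlinarith
  have hxB : x ≤ B := by
    by_contra hlt
    rw [not_le] at hlt
    have h1 : 0 ≤ y ^ 2 * (1 - (s / 10) ^ 2) := by positivity
    nlinarith
  have h3 : (B - x) * (B + x) ≤ y ^ 2 := by
    have : y ^ 2 * (1 - (s / 10) ^ 2) ≤ y ^ 2 := by nlinarith [sq_nonneg (y * (s / 10))]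
    nlinarith
  have h4 : (B - x) * L ≤ y ^ 2 := by nlinarith
  have h5 : B - x ≤ y ^ 2 / L := by rwa [le_div_iff₀ hL]
  have e2 : A - B - y * s / 10 = -(B - x) := by rw [hx]; ring
  rw [e2, abs_neg, abs_of_nonneg (by linarith)]
  exact h5

end Pool.Agent.L7h16.PM
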