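import Pool.Agent.L7h49.PM.Def5

/-!
# Project PM, part SWAPB (adapted from Pool/Agent/L7h66/PM/Swap.lean)
-/

set_option autoImplicit false

namespace Pool.Agent.L7h16.PM

open Pool.Agent.L7h49.PM

lemma sep_lt {V : Type} {G : SimpleGraph V} {f : V → E2} {C : ℝ} {t : ℕ} {X : ℝ}
    {eta : Fin t → ℝ} {B : Fin t → Set V} (h : St G f C X eta B) {k l : Fin t}
    (hkl : eta k < eta l) : eta k + 200 * C ≤ eta l := by
  have hne : k ≠ l := fun e => by rw [e] at hkl; exact lt_irrefl _ hkl
  have h1 := h.sep k l hne
  rw [abs_of_neg (by linarith)] at h1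
  linarith

lemma sep_or {V : Type} {G : SimpleGraph V} {f : V → E2} {C : ℝ} {t : ℕ} {X : ℝ}
    {eta : Fin t → ℝ} {B : Fin t → Set V} (h : St G f C X eta B) {k l : Fin t}
    (hne : k ≠ l) : eta k + 200 * C ≤ eta l ∨ eta l + 200 * C ≤ eta k := by
  have h1 := h.sep k l hne
  rcases le_abs.1 h1 with h2 | h2
  · right; linarith
  · left; linarith

theorem s_SWAPB (h1 : S_XINGB) (h2 : S_LIFTSB) (h3 : S_ROUTEB) (h4 : S_CSTB) : S_SWAPB := by
  classical
  intro V G f C D hR t X M L eta B i j hS hXM hM hL htL hD hij hnb
  have hC : 1 ≤ C := hR.one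
  have hLC : 100000 * C ≤ L := by
    have g1 := Real.add_one_le_exp (8000000 * C ^ 2)
    nlinarith
  have hMk := fun k => abs_le.1 (hM k)
  have hX2 := abs_le.1 hXM
  have hM0 : 0 ≤ M := (abs_nonneg X).trans hXM
  have ht0' : (0 : ℝ) ≤ t := Nat.cast_nonneg t
  have htC : 0 ≤ t * C := by positivity
  have hR' : |X + 100 * (t + 5) * C| ≤ M + L := abs_le.2 ⟨by nlinarith, by nlinarith⟩
  have hW' : |eta j + 200 * C| ≤ M + L := abs_le.2 ⟨by linarith [(hMk j).1], by linarith [(hMk j).2]⟩
  have hji : j ≠ i := fun e => by rw [e] at hij; exact lt_irrefl _ hij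
  have hij200 := sep_lt hS hij
  -- the four kinds of tracks
  have hk : ∀ k, k ≠ i → k ≠ j → eta k + 200 * C ≤ eta i ∨ eta j + 200 * C ≤ eta k := by
    intro k ki kj
    rcases hnb k ki kj with h | h
    · exact Or.inl (sep_lt hS h)
    · exact Or.inr (sep_lt hS h)
  obtain ⟨y0, y1, t0, t1, a, b, c, d, P, Q, xg, hy1, ht1⟩ :=
    h1 V G f C D hR (X + 100 * (t + 5) * C) (eta j + 200 * C) L hL (by linarith)
  have e1 := xg.hy0
  have e2 := xg.hy
  have e3 := xg.ht0
  have e4 := xg.ht
  -- lift the tracks above
  obtain ⟨B1, s1, S1⟩ := h2 V G f C D hR t X (eta j) (t1 + y1 + 1000 * C) eta B hS (by linarith) (by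
    intro k
    have := hM k
    nlinarith)
  set eta1 : Fin t → ℝ := fun k => if eta j < eta k then eta k + (t1 + y1 + 1000 * C) else eta k
    with heta1
  have v1i : eta1 i = eta i := by
    show (if eta j < eta i then _ else _) = _
    rw [if_neg (by linarith)]
  have v1j : eta1 j = eta j := by
    show (if eta j < eta j then _ else _) = _
    rw [if_neg (by linarith)]
  have v1b : ∀ k, eta k + 200 * C ≤ eta i → eta1 k = eta k := by
    intro k h
    show (if eta j < eta k then _ else _) = _
    rw [if_neg (by linarith)]
  have v1a : ∀ k, eta j + 200 * C ≤ eta k → eta1 k = eta k + (t1 + y1 + 1000 * C) := by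
    intro k h
    show (if eta j < eta k then _ else _) = _
    rw [if_pos (by linarith)]
  have hb1 : ∀ k, |eta1 k| ≤ M + L := by
    intro k
    rcases lt_or_ge (eta j) (eta k) with h | h
    · have e : eta1 k = eta k + (t1 + y1 + 1000 * C) := by
        show (if eta j < eta k then _ else _) = _
        rw [if_pos h]
      rw [e]
      exact abs_le.2 ⟨by linarith [(hMk k).1], by linarith [(hMk k).2]⟩
    · have e : eta1 k = eta k := by
        show (if eta j < eta k then _ else _) = _
        rw [if_neg (not_lt.2 h)]
      rw [e]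
      linarith [hM k]
  have hx1 : |X + 100 * (t + 1) * C| ≤ M + L := abs_le.2 ⟨by nlinarith, by nlinarith⟩
  have hx2 : |X + 100 * (t + 1) * C + 100 * C| ≤ M + L := abs_le.2 ⟨by nlinarith, by nlinarith⟩
  have hx3 : |X + 100 * (t + 1) * C + 100 * C + 100 * C| ≤ M + L := abs_le.2 ⟨by nlinarith, by nlinarith⟩
  -- lift `j`
  set eta2 : Fin t → ℝ := fun k => if k = j then eta j + 200 * C + y1 else eta1 k with heta2
  have v2j : eta2 j = eta j + 200 * C + y1 := by
    show (if j = j then _ else _) = _
    rw [if_pos rfl]
  have v2 : ∀ k, k ≠ j → eta2 k = eta1 k := by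
    intro k h
    show (if k = j then _ else _) = _
    rw [if_neg h]
  have hb2 : ∀ k, |eta2 k| ≤ M + L := by
    intro k
    by_cases hkj : k = j
    · rw [hkj, v2j]
      exact abs_le.2 ⟨by linarith [(hMk j).1], by linarith [(hMk j).2]⟩
    · rw [v2 k hkj]
      exact hb1 k
  obtain ⟨B2, s2, S2, -, -⟩ := h3 V G f C D hR t (X + 100 * (t + 1) * C)
    (X + 100 * (t + 1) * C + 100 * C) eta1 eta2 B1 S1 (fun k => by linarith [hb1 k, hb2 k]) le_rfl (by
      intro k
      by_cases hkj : k = j
      · rw [hkj, v1j, v2j]; linarith
      · rw [v2 k hkj]) (by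
      intro k l hkl
      by_cases hkj : k = j
      · subst hkj
        rw [v2j, v1j]
        by_cases hli : l = i
        · subst hli
          right
          rw [v2 l hkl.symm, v1i]
          linarith
        · rcases hk l hli (Ne.symm hkl) with h | h
          · right
            rw [v2 l hkl.symm, v1b l h]
            linarith
          · left
            rw [v1a l h]
            linarith
      · rw [v2 k hkj]
        by_cases hlj : l = j
        · subst hlj
          rw [v2j, v1j]
          by_cases hki : k = i
          · subst hki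
            left
            rw [v1i]
            linarith
          · rcases hk k hki hkj with h | h
            · left
              rw [v1b k h]
              linarith
            · right
              rw [v1a k h]
              linarith
        · rw [v2 l hlj]
          exact sep_or S1 hkl)
  -- lift `i`
  set eta3 : Fin t → ℝ := fun k => if k = i then eta j + 200 * C + y0 else eta2 k with heta3
  have v3i : eta3 i = eta j + 200 * C + y0 := by
    show (if i = i then _ else _) = _
    rw [if_pos rfl]
  have v3 : ∀ k, k ≠ i → eta3 k = eta2 k := by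
    intro k h
    show (if k = i then _ else _) = _
    rw [if_neg h]
  have hb3 : ∀ k, |eta3 k| ≤ M + L := by
    intro k
    by_cases hki : k = i
    · rw [hki, v3i]
      exact abs_le.2 ⟨by linarith [(hMk j).1], by linarith [(hMk j).2]⟩
    · rw [v3 k hki]
      exact hb2 k
  obtain ⟨B3, s3, S3, -, -⟩ := h3 V G f C D hR t (X + 100 * (t + 1) * C + 100 * C)
    (X + 100 * (t + 1) * C + 100 * C + 100 * C) eta2 eta3 B2 S2 (fun k => by linarith [hb2 k, hb3 k]) le_rfl (by
      intro k
      by_cases hki : k = i
      · rw [hki, v3i, v2 i hji.symm, v1i]; linarith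
      · rw [v3 k hki]) (by
      intro k l hkl
      by_cases hki : k = i
      · subst hki
        rw [v3i, v2 k hji.symm, v1i]
        by_cases hlj : l = j
        · subst hlj
          left
          rw [v2j]
          linarith
        · rw [v2 l hlj, v3 l hkl.symm, v2 l hlj]
          rcases hk l hkl.symm hlj with h | h
          · right
            rw [v1b l h]
            linarith
          · left
            rw [v1a l h]
            linarith
      · rw [v3 k hki]
        by_cases hli : l = i
        · subst hli
          rw [v3i, v2 l hji.symm, v1i]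
          by_cases hkj : k = j
          · subst hkj
            right
            rw [v2j]
            linarith
          · rw [v2 k hkj]
            rcases hk k hki hkj with h | h
            · left
              rw [v1b k h]
              linarith
            · right
              rw [v1a k h]
              linarith
        · rw [v3 l hli]
          exact sep_or S2 hkl)
  -- to the line `x = R`
  obtain ⟨B4, s4, S4, -, -⟩ := h3 V G f C D hR t (X + 100 * (t + 1) * C + 100 * C + 100 * C)
    (X + 100 * (t + 5) * C) eta3 eta3 B3 S3 (fun k => by linarith [hb3 k]) (by nlinarith) (fun k => le_rfl)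
    (fun k l hkl => sep_or S3 hkl)
  have v3j : eta3 j = eta j + 200 * C + y1 := by rw [v3 j hji, v2j]
  have w3 : ∀ k, k ≠ i → k ≠ j → eta3 k = eta1 k := fun k ki kj => by rw [v3 k ki, v2 k kj]
  obtain ⟨B5, s5, S5⟩ := h4 V G f C D hR t (X + 100 * (t + 5) * C) (eta j + 200 * C) L y0 y1 t0 t1
    a b c d P Q xg hy1 ht1 eta3 B4 i j S4 hji.symm (fun k => by linarith [hb3 k]) v3i v3j (by
      intro k ki kj
      rw [w3 k ki kj]
      rcases hk k ki kj with h | h
      · left
        rw [v1b k h]
        linarith
      · right
        rw [v1a k h]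
        linarith)
  refine ⟨_, _, B5, fun k => ((((s1 k).trans (s2 k)).trans (s3 k)).trans (s4 k)).trans (s5 k), S5,
    ?_, ?_, ?_, ?_, ?_, ?_⟩
  · rw [if_pos rfl, if_neg hji, if_pos rfl]
    linarith
  · intro k ki kj h
    rw [if_neg ki, if_neg kj, if_neg hji, if_pos rfl, w3 k ki kj, v1b k (sep_lt hS h)]
    have := sep_lt hS h
    linarith
  · intro k ki kj h
    rw [if_pos rfl, if_neg ki, if_neg kj, w3 k ki kj, v1a k (sep_lt hS h)]
    have := sep_lt hS h
    linarith
  · intro k l ki kj li lj h
    rw [if_neg ki, if_neg kj, if_neg li, if_neg lj, w3 k ki kj, w3 l li lj]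
    rcases hk k ki kj with h5 | h5
    · rw [v1b k h5]
      rcases hk l li lj with h6 | h6
      · rw [v1b l h6]; exact h
      · rw [v1a l h6]; linarith
    · rw [v1a k h5]
      rcases hk l li lj with h6 | h6
      · linarith
      · rw [v1a l h6]; linarith
  · have := abs_le.1 hR'
    exact abs_le.2 ⟨by linarith [this.1], by linarith [this.2]⟩
  · intro k
    by_cases hki : k = i
    · rw [if_pos hki]
      exact abs_le.2 ⟨by linarith [(hMk j).1], by linarith [(hMk j).2]⟩
    · rw [if_neg hki]
      by_cases hkj : k = j
      · rw [if_pos hkj]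
        exact abs_le.2 ⟨by linarith [(hMk j).1], by linarith [(hMk j).2]⟩
      · rw [if_neg hkj]
        linarith [hb3 k]

end Pool.Agent.L7h16.PM
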